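import Pool.Agent.helper24.SK.Spec

/-!
# sk:DEC (project MP_5628fe_nt, spec by helper24)
-/

set_option autoImplicit false

namespace Pool.Agent.SK

open Finset ArithmeticFunction MeasureTheory
open Pool.Agent.CH (nit DPb Win Tset ph)
open Pool.Agent.EC (tri vN fN XN TL AdT)
open Pool.Agent.helper85.BVP (tau)
open GD (ks)

/-! ## size of Dirichlet products -/

private theorem DEC_tau_one {n : ℕ} (hn : 1 ≤ n) : 1 ≤ tau n := by
  unfold tau
  have : 0 < #n.divisors := Finset.card_pos.2 ⟨1, by rw [Nat.mem_divisors]; exact ⟨one_dvd _, by omega⟩⟩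
  exact_mod_cast this

private theorem DEC_tau_mono {d n : ℕ} (hd : d ∣ n) (hn : 1 ≤ n) : tau d ≤ tau n := by
  unfold tau
  have : #d.divisors ≤ #n.divisors := Finset.card_le_card (Nat.divisors_subset_of_dvd (by omega) hd)
  exact_mod_cast this

/-- `|F n| ≤ C tau n ^ k` -/
private def DEC_BD (C : ℝ) (k : ℕ) (F : ArithmeticFunction ℝ) : Prop := ∀ n : ℕ, 1 ≤ n → |F n| ≤ C * tau n ^ k

private theorem DEC_BD_mono {C D : ℝ} {k l : ℕ} {F : ArithmeticFunction ℝ} (hC : 0 ≤ C) (h : DEC_BD C k F) (hCD : C ≤ D)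
    (hkl : k ≤ l) : DEC_BD D l F := by
  intro n hn
  have h1 := DEC_tau_one hn
  calc |F n| ≤ C * tau n ^ k := h n hn
    _ ≤ D * tau n ^ l := mul_le_mul hCD (pow_le_pow_right₀ h1 hkl) (by positivity) (hC.trans hCD)

private theorem DEC_BD_mul {C D : ℝ} {k l : ℕ} {F G : ArithmeticFunction ℝ} (hC : 0 ≤ C) (hD : 0 ≤ D)
    (hF : DEC_BD C k F) (hG : DEC_BD D l G) : DEC_BD (C * D) (k + l + 1) (F * G) := by
  intro n hn
  have hT := DEC_tau_one hn
  rw [mul_apply]
  have hterm : ∀ x ∈ n.divisorsAntidiagonal, |F x.1 * G x.2| ≤ C * D * tau n ^ (k + l) := by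
    intro x hx
    have hx' := Nat.mem_divisorsAntidiagonal.1 hx
    have hx1 : x.1 ∣ n := ⟨x.2, hx'.1.symm⟩
    have hx2 : x.2 ∣ n := ⟨x.1, by rw [mul_comm]; exact hx'.1.symm⟩
    have h1 : 1 ≤ x.1 := Nat.pos_of_dvd_of_pos hx1 (by omega)
    have h2 : 1 ≤ x.2 := Nat.pos_of_dvd_of_pos hx2 (by omega)
    have t1 := DEC_tau_mono hx1 hn
    have t2 := DEC_tau_mono hx2 hn
    have u1 := DEC_tau_one h1
    have u2 := DEC_tau_one h2
    rw [abs_mul]
    calc |F x.1| * |G x.2| ≤ (C * tau x.1 ^ k) * (D * tau x.2 ^ l) :=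
          mul_le_mul (hF _ h1) (hG _ h2) (abs_nonneg _) (by positivity)
      _ ≤ (C * tau n ^ k) * (D * tau n ^ l) := by
          have a1 : tau x.1 ^ k ≤ tau n ^ k := pow_le_pow_left₀ (by linarith) t1 k
          have a2 : tau x.2 ^ l ≤ tau n ^ l := pow_le_pow_left₀ (by linarith) t2 l
          exact mul_le_mul (mul_le_mul_of_nonneg_left a1 hC) (mul_le_mul_of_nonneg_left a2 hD) (by positivity)
            (by positivity)
      _ = C * D * tau n ^ (k + l) := by rw [pow_add]; ring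
  calc |∑ x ∈ n.divisorsAntidiagonal, F x.1 * G x.2| ≤ ∑ x ∈ n.divisorsAntidiagonal, |F x.1 * G x.2| :=
        Finset.abs_sum_le_sum_abs _ _
    _ ≤ ∑ _x ∈ n.divisorsAntidiagonal, C * D * tau n ^ (k + l) := Finset.sum_le_sum hterm
    _ = tau n * (C * D * tau n ^ (k + l)) := by
        rw [Finset.sum_const, nsmul_eq_mul]
        congr 1
        unfold tau
        rw [← Nat.map_div_right_divisors, Finset.card_map]
    _ = C * D * tau n ^ (k + l + 1) := by rw [pow_succ]; ring

private theorem DEC_BD_one : DEC_BD 1 0 (1 : ArithmeticFunction ℝ) := by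
  intro n _
  rw [one_apply]
  split_ifs <;> simp

private theorem DEC_BD_pow {F : ArithmeticFunction ℝ} (hF : DEC_BD 1 0 F) (k : ℕ) : DEC_BD 1 k (F ^ k) := by
  induction k with
  | zero => simpa using DEC_BD_one
  | succ k ih =>
    rw [pow_succ]
    have h := DEC_BD_mul (by norm_num) (by norm_num) ih hF
    simpa using h

private theorem DEC_BD_prod {ι : Type} (s : Finset ι) (f : ι → ArithmeticFunction ℝ) (hf : ∀ i ∈ s, DEC_BD 1 0 (f i)) :
    DEC_BD 1 (#s) (∏ i ∈ s, f i) := by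
  classical
  induction s using Finset.induction_on with
  | empty => simpa using DEC_BD_one
  | insert i s hi ih =>
    rw [Finset.prod_insert hi, Finset.card_insert_of_notMem hi]
    have h := DEC_BD_mul (by norm_num) (by norm_num) (hf i (Finset.mem_insert_self i s))
      (ih fun j hj => hf j (Finset.mem_insert_of_mem hj))
    have e : 0 + #s + 1 = #s + 1 := by omega
    rw [e] at h
    simpa using h

private theorem DEC_sum_apply {ι : Type} (s : Finset ι) (f : ι → ArithmeticFunction ℝ) (n : ℕ) :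
    (∑ i ∈ s, f i) n = ∑ i ∈ s, f i n := by
  classical
  induction s using Finset.induction_on with
  | empty => simp
  | insert i s hi ih => rw [Finset.sum_insert hi, Finset.sum_insert hi, ArithmeticFunction.add_apply, ih]

private theorem DEC_BD_sum {ι : Type} (s : Finset ι) (f : ι → ArithmeticFunction ℝ) (C : ℝ) (k : ℕ)
    (hf : ∀ i ∈ s, DEC_BD C k (f i)) : DEC_BD ((#s : ℝ) * C) k (∑ i ∈ s, f i) := by
  intro n hn
  rw [DEC_sum_apply]
  calc |∑ i ∈ s, f i n| ≤ ∑ i ∈ s, |f i n| := Finset.abs_sum_le_sum_abs _ _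
    _ ≤ ∑ _i ∈ s, C * tau n ^ k := Finset.sum_le_sum fun i hi => hf i hi n hn
    _ = (#s : ℝ) * C * tau n ^ k := by rw [Finset.sum_const, nsmul_eq_mul]; ring

/-! ## linear combinations -/

/-- `∑_{i=1}^7 c i F i` -/
private noncomputable def DEC_LC (c : ℕ → ℝ) (F : ℕ → ArithmeticFunction ℝ) : ArithmeticFunction ℝ :=
  ⟨fun n => ∑ i ∈ Icc 1 7, c i * F i n, by simp⟩

private theorem DEC_LC_apply (c : ℕ → ℝ) (F : ℕ → ArithmeticFunction ℝ) (n : ℕ) :
    DEC_LC c F n = ∑ i ∈ Icc 1 7, c i * F i n := rfl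

private theorem DEC_LC_mul (c : ℕ → ℝ) (F : ℕ → ArithmeticFunction ℝ) (G : ArithmeticFunction ℝ) (n : ℕ) :
    (DEC_LC c F * G) n = ∑ i ∈ Icc 1 7, c i * (F i * G) n := by
  rw [mul_apply]
  simp_rw [DEC_LC_apply, Finset.sum_mul, mul_apply, Finset.mul_sum]
  rw [Finset.sum_comm]
  exact Finset.sum_congr rfl fun i _ => Finset.sum_congr rfl fun x _ => by ring

/-! ## the pieces -/

private theorem DEC_zeta (X : ℕ) : ((zeta : ArithmeticFunction ℕ) : ArithmeticFunction ℝ) = sml X 0 + bgf X 0 := by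
  ext n
  rw [ArithmeticFunction.add_apply, natCoe_apply]
  have h1 : sml X 0 n = if 1 ≤ n ∧ n ≤ X then Real.log n ^ 0 else 0 := rfl
  have h2 : bgf X 0 n = if X < n then Real.log n ^ 0 else 0 := rfl
  rw [h1, h2, zeta_apply]
  by_cases hn : n = 0
  · subst hn; simp
  · rcases le_or_gt n X with h | h
    · rw [if_neg hn, if_pos ⟨by omega, h⟩, if_neg (by omega)]; simp
    · rw [if_neg hn, if_neg (by omega), if_pos h]; simp

private theorem DEC_log (X : ℕ) : (ArithmeticFunction.log : ArithmeticFunction ℝ) = sml X 1 + bgf X 1 := by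
  ext n
  rw [ArithmeticFunction.add_apply, log_apply]
  have h1 : sml X 1 n = if 1 ≤ n ∧ n ≤ X then Real.log n ^ 1 else 0 := rfl
  have h2 : bgf X 1 n = if X < n then Real.log n ^ 1 else 0 := rfl
  rw [h1, h2]
  by_cases hn : n = 0
  · subst hn; simp
  · rcases le_or_gt n X with h | h
    · rw [if_pos ⟨by omega, h⟩, if_neg (by omega)]; simp
    · rw [if_neg (by omega), if_pos h]; simp

private theorem DEC_prod {r : ℕ} (N z X : ℕ) (a b : Fin r → ℝ) (i : ℕ) (hi : 1 ≤ i) :
    ∏ k, uu N z X a b i k = (∏ k, cel ((N : ℝ) ^ a k) ((N : ℝ) ^ b k)) * (muz z) ^ i * (sml X 0) ^ (i - 1) * sml X 1 := by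
  rw [Fin.prod_univ_add]
  have h1 : ∏ k : Fin r, uu N z X a b i (Fin.castAdd (2 * i) k) = ∏ k, cel ((N : ℝ) ^ a k) ((N : ℝ) ^ b k) := by
    refine Finset.prod_congr rfl fun k _ => ?_
    unfold uu
    have hk : ((Fin.castAdd (2 * i) k : Fin (r + 2 * i)) : ℕ) < r := by simp
    rw [dif_pos hk]
    rfl
  let g : ℕ → ArithmeticFunction ℝ := fun k => if k < i then muz z else if k + 1 < 2 * i then sml X 0 else sml X 1
  have h2 : ∏ k : Fin (2 * i), uu N z X a b i (Fin.natAdd r k) = ∏ k ∈ range (2 * i), g k := by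
    rw [← Fin.prod_univ_eq_prod_range]
    refine Finset.prod_congr rfl fun k _ => ?_
    unfold uu
    have hv : ((Fin.natAdd r k : Fin (r + 2 * i)) : ℕ) = r + k := rfl
    have hk : ¬ ((Fin.natAdd r k : Fin (r + 2 * i)) : ℕ) < r := by rw [hv]; omega
    rw [dif_neg hk, hv]
    by_cases c1 : (k : ℕ) < i
    · have e1 : r + (k : ℕ) < r + i := by omega
      have e2 : g k = muz z := if_pos c1
      rw [if_pos e1, e2]
    · have e1 : ¬ r + (k : ℕ) < r + i := by omega
      rw [if_neg e1]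
      by_cases c2 : (k : ℕ) + 1 < 2 * i
      · have e3 : r + (k : ℕ) + 1 < r + 2 * i := by omega
        have e2 : g k = sml X 0 := by
          show (if (k : ℕ) < i then muz z else if (k : ℕ) + 1 < 2 * i then sml X 0 else sml X 1) = _
          rw [if_neg c1, if_pos c2]
        rw [if_pos e3, e2]
      · have e3 : ¬ r + (k : ℕ) + 1 < r + 2 * i := by omega
        have e2 : g k = sml X 1 := by
          show (if (k : ℕ) < i then muz z else if (k : ℕ) + 1 < 2 * i then sml X 0 else sml X 1) = _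
          rw [if_neg c1, if_neg c2]
        rw [if_neg e3, e2]
  have h3 : ∏ k ∈ range (2 * i), g k = (muz z) ^ i * ((sml X 0) ^ (i - 1) * sml X 1) := by
    obtain ⟨j, rfl⟩ : ∃ j, i = j + 1 := ⟨i - 1, by omega⟩
    have e : 2 * (j + 1) = (j + 1) + (j + 1) := by ring
    have hg1 : ∀ k ∈ range (j + 1), g k = muz z := by
      intro k hk
      exact if_pos (Finset.mem_range.1 hk)
    have hg2 : ∀ k ∈ range j, g (j + 1 + k) = sml X 0 := by
      intro k hk
      have hk' := Finset.mem_range.1 hk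
      show (if j + 1 + k < j + 1 then muz z else if j + 1 + k + 1 < 2 * (j + 1) then sml X 0 else sml X 1) = _
      rw [if_neg (by omega), if_pos (by omega)]
    have hg3 : g (j + 1 + j) = sml X 1 := by
      show (if j + 1 + j < j + 1 then muz z else if j + 1 + j + 1 < 2 * (j + 1) then sml X 0 else sml X 1) = _
      rw [if_neg (by omega), if_neg (by omega)]
    rw [e, Finset.prod_range_add, Finset.prod_congr rfl hg1, Finset.prod_const, Finset.card_range,
      Finset.prod_range_succ, Finset.prod_congr rfl hg2, Finset.prod_const, Finset.card_range, hg3]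
    rfl
  rw [h1, h2, h3]
  ring

/-- the algebra for one `i` -/
private theorem DEC_alg {A : Type} [CommRing A] (P M Z l s0 s1 b0 b1 : A) (hZ : Z = s0 + b0) (hl : l = s1 + b1) (k : ℕ) :
    P * (M ^ (k + 1) * Z ^ k * l) = P * M ^ (k + 1) * s0 ^ k * s1 +
      (P * M ^ (k + 1) * (∑ j ∈ range k, Z ^ j * s0 ^ (k - 1 - j)) * s1) * b0 + (P * M ^ (k + 1) * Z ^ k) * b1 := by
  have h := (Commute.all Z s0).geom_sum₂_mul k
  have h' : (∑ j ∈ range k, Z ^ j * s0 ^ (k - 1 - j)) * b0 = Z ^ k - s0 ^ k := by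
    rw [← h, hZ]
    ring
  have h2 : (P * M ^ (k + 1) * (∑ j ∈ range k, Z ^ j * s0 ^ (k - 1 - j)) * s1) * b0 =
      P * M ^ (k + 1) * s1 * ((∑ j ∈ range k, Z ^ j * s0 ^ (k - 1 - j)) * b0) := by ring
  rw [h2, h', hl]
  ring

/-- **DEC**. -/
theorem DEC (h1 : HB7_stmt) (h2 : TLD_stmt) : DEC_stmt := by
  intro r
  refine ⟨762 + r + 17, ?_⟩
  intro N z X a b hN hz
  set P : ArithmeticFunction ℝ := ∏ k, cel ((N : ℝ) ^ a k) ((N : ℝ) ^ b k) with hP
  set Z : ArithmeticFunction ℝ := ((zeta : ArithmeticFunction ℕ) : ArithmeticFunction ℝ) with hZ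
  set M : ArithmeticFunction ℝ := muz z with hM
  set c : ℕ → ℝ := fun i => (-1 : ℝ) ^ (i + 1) * (Nat.choose 7 i : ℝ) with hc
  set S : ℕ → ArithmeticFunction ℝ := fun i => ∑ j ∈ range (i - 1), Z ^ j * (sml X 0) ^ (i - 1 - 1 - j) with hS
  -- bounds
  have bP : DEC_BD 1 r P := by
    have h := DEC_BD_prod (univ : Finset (Fin r)) (fun k => cel ((N : ℝ) ^ a k) ((N : ℝ) ^ b k)) ?_
    · rw [Finset.card_univ, Fintype.card_fin] at h
      exact h
    · intro k _ n _
      have e : cel ((N : ℝ) ^ a k) ((N : ℝ) ^ b k) n =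
          if n.Prime ∧ (N : ℝ) ^ a k ≤ (n : ℝ) ∧ (n : ℝ) < (N : ℝ) ^ b k then 1 else 0 := rfl
      rw [e]
      split_ifs <;> simp
  have bM : DEC_BD 1 0 M := by
    intro n _
    have e : M n = if n ≤ z then ((moebius n : ℤ) : ℝ) else 0 := rfl
    rw [e]
    split_ifs
    · have h := abs_moebius_le_one (n := n)
      have h' : |((moebius n : ℤ) : ℝ)| ≤ 1 := by exact_mod_cast h
      simpa using h'
    · simp
  have bZ : DEC_BD 1 0 Z := by
    intro n _
    rw [hZ, natCoe_apply, zeta_apply]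
    split_ifs <;> simp
  have bs0 : DEC_BD 1 0 (sml X 0) := by
    intro n _
    have e : sml X 0 n = if 1 ≤ n ∧ n ≤ X then Real.log n ^ 0 else 0 := rfl
    rw [e]
    split_ifs <;> simp
  have bS : ∀ i ∈ Icc 1 7, DEC_BD 6 7 (S i) := by
    intro i hi
    have hi' := Finset.mem_Icc.1 hi
    have h := DEC_BD_sum (range (i - 1)) (fun j => Z ^ j * (sml X 0) ^ (i - 1 - 1 - j)) 1 7 ?_
    · rw [Finset.card_range] at h
      refine DEC_BD_mono (by positivity) h ?_ (le_refl _)
      have : ((i - 1 : ℕ) : ℝ) ≤ 6 := by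
        have : i - 1 ≤ 6 := by omega
        exact_mod_cast this
      linarith
    · intro j hj
      have hj' := Finset.mem_range.1 hj
      have h3 := DEC_BD_mul (by norm_num) (by norm_num) (DEC_BD_pow bZ j) (DEC_BD_pow bs0 (i - 1 - 1 - j))
      exact DEC_BD_mono (by norm_num) h3 (by norm_num) (by omega)
  have bPM : ∀ i ∈ Icc 1 7, DEC_BD 1 (r + 8) (P * M ^ i) := by
    intro i hi
    have hi' := Finset.mem_Icc.1 hi
    have h3 := DEC_BD_mul (by norm_num) (by norm_num) bP (DEC_BD_pow bM i)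
    exact DEC_BD_mono (by norm_num) h3 (by norm_num) (by omega)
  have bPMZ : ∀ i ∈ Icc 1 7, DEC_BD 1 (r + 15) (P * M ^ i * Z ^ (i - 1)) := by
    intro i hi
    have hi' := Finset.mem_Icc.1 hi
    have h3 := DEC_BD_mul (by norm_num) (by norm_num) (bPM i hi) (DEC_BD_pow bZ (i - 1))
    exact DEC_BD_mono (by norm_num) h3 (by norm_num) (by omega)
  have bPMS : ∀ i ∈ Icc 1 7, DEC_BD 6 (r + 16) (P * M ^ i * S i) := by
    intro i hi
    have h3 := DEC_BD_mul (by norm_num) (by norm_num) (bPM i hi) (bS i hi)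
    exact DEC_BD_mono (by norm_num) h3 (by norm_num) (by omega)
  have hcs : ∑ i ∈ Icc 1 7, |c i| = 127 := by
    have h3 : ∀ i ∈ Icc 1 7, |c i| = (Nat.choose 7 i : ℝ) := by
      intro i _
      rw [hc]
      simp only [abs_mul, abs_pow, abs_neg, abs_one, one_pow, one_mul, Nat.abs_cast]
    rw [Finset.sum_congr rfl h3]
    have h4 : ∑ i ∈ Icc 1 7, Nat.choose 7 i = 127 := by decide
    exact_mod_cast h4
  have hlc : ∀ (F : ℕ → ArithmeticFunction ℝ) (n : ℕ) (B : ℝ), (∀ i ∈ Icc 1 7, |F i n| ≤ B) →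
      |DEC_LC c F n| ≤ 127 * B := by
    intro F n B hF
    rw [DEC_LC_apply]
    calc |∑ i ∈ Icc 1 7, c i * F i n| ≤ ∑ i ∈ Icc 1 7, |c i * F i n| := Finset.abs_sum_le_sum_abs _ _
      _ ≤ ∑ i ∈ Icc 1 7, |c i| * B := Finset.sum_le_sum fun i hi => by
          rw [abs_mul]; exact mul_le_mul_of_nonneg_left (hF i hi) (abs_nonneg _)
      _ = 127 * B := by rw [← Finset.sum_mul, hcs]
  refine ⟨DEC_LC c fun i => P * M ^ i * S i * sml X 1, DEC_LC c fun i => P * M ^ i * Z ^ (i - 1), ?_, ?_⟩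
  · intro d hd
    have hT := DEC_tau_one hd
    have hlog : 0 ≤ Real.log d := Real.log_nonneg (by exact_mod_cast hd)
    have hKT : ∀ l : ℕ, l ≤ 762 + r + 17 → tau d ^ l ≤ tau d ^ (762 + r + 17) := fun l hl => pow_le_pow_right₀ hT hl
    have hK : (762 : ℝ) ≤ ((762 + r + 17 : ℕ) : ℝ) := by push_cast; linarith [(Nat.cast_nonneg r : (0 : ℝ) ≤ r)]
    constructor
    · have h3 : ∀ i ∈ Icc 1 7, |(P * M ^ i * S i * sml X 1) d| ≤ 6 * (1 + Real.log d) * tau d ^ (r + 17) := by
        intro i hi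
        rw [mul_apply]
        have hterm : ∀ x ∈ d.divisorsAntidiagonal, |(P * M ^ i * S i) x.1 * sml X 1 x.2| ≤
            6 * (1 + Real.log d) * tau d ^ (r + 16) := by
          intro x hx
          have hx' := Nat.mem_divisorsAntidiagonal.1 hx
          have hx1 : x.1 ∣ d := ⟨x.2, hx'.1.symm⟩
          have hx2 : x.2 ∣ d := ⟨x.1, by rw [mul_comm]; exact hx'.1.symm⟩
          have g1 : 1 ≤ x.1 := Nat.pos_of_dvd_of_pos hx1 (by omega)
          have g2 : 1 ≤ x.2 := Nat.pos_of_dvd_of_pos hx2 (by omega)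
          have t1 := DEC_tau_mono hx1 hd
          have u1 := DEC_tau_one g1
          have hs1 : |sml X 1 x.2| ≤ 1 + Real.log d := by
            have e : sml X 1 x.2 = if 1 ≤ x.2 ∧ x.2 ≤ X then Real.log x.2 ^ 1 else 0 := rfl
            rw [e]
            have l1 : 0 ≤ Real.log x.2 := Real.log_nonneg (by exact_mod_cast g2)
            have l2 : Real.log x.2 ≤ Real.log d :=
              Real.log_le_log (by exact_mod_cast g2) (by exact_mod_cast Nat.le_of_dvd (by omega) hx2)
            split_ifs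
            · rw [pow_one, abs_of_nonneg l1]; linarith
            · rw [abs_zero]; linarith
          rw [abs_mul]
          calc |(P * M ^ i * S i) x.1| * |sml X 1 x.2| ≤ (6 * tau x.1 ^ (r + 16)) * (1 + Real.log d) :=
                mul_le_mul (bPMS i hi _ g1) hs1 (abs_nonneg _) (by positivity)
            _ ≤ (6 * tau d ^ (r + 16)) * (1 + Real.log d) := by
                have a1 : tau x.1 ^ (r + 16) ≤ tau d ^ (r + 16) := pow_le_pow_left₀ (by linarith) t1 _
                exact mul_le_mul_of_nonneg_right (mul_le_mul_of_nonneg_left a1 (by norm_num)) (by linarith)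
            _ = 6 * (1 + Real.log d) * tau d ^ (r + 16) := by ring
        calc |∑ x ∈ d.divisorsAntidiagonal, (P * M ^ i * S i) x.1 * sml X 1 x.2| ≤
              ∑ x ∈ d.divisorsAntidiagonal, |(P * M ^ i * S i) x.1 * sml X 1 x.2| := Finset.abs_sum_le_sum_abs _ _
          _ ≤ ∑ _x ∈ d.divisorsAntidiagonal, 6 * (1 + Real.log d) * tau d ^ (r + 16) := Finset.sum_le_sum hterm
          _ = tau d * (6 * (1 + Real.log d) * tau d ^ (r + 16)) := by
              rw [Finset.sum_const, nsmul_eq_mul]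
              congr 1
              unfold tau
              rw [← Nat.map_div_right_divisors, Finset.card_map]
          _ = 6 * (1 + Real.log d) * tau d ^ (r + 17) := by rw [pow_succ]; ring
      have h4 := hlc _ d _ h3
      refine h4.trans ?_
      have h5 : 127 * (6 * (1 + Real.log d) * tau d ^ (r + 17)) = (762 * (1 + Real.log d)) * tau d ^ (r + 17) := by ring
      rw [h5]
      exact mul_le_mul (mul_le_mul_of_nonneg_right hK (by linarith)) (hKT _ (by omega)) (by positivity) (by positivity)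
    · have h3 : ∀ i ∈ Icc 1 7, |(P * M ^ i * Z ^ (i - 1)) d| ≤ 1 * tau d ^ (r + 15) := fun i hi => bPMZ i hi d hd
      have h4 := hlc _ d _ h3
      refine h4.trans ?_
      have h5 : 127 * (1 * tau d ^ (r + 15)) = 127 * tau d ^ (r + 15) := by ring
      rw [h5]
      refine mul_le_mul ?_ (hKT _ (by omega)) (by positivity) (by positivity)
      have : (127 : ℝ) ≤ ((762 + r + 17 : ℕ) : ℝ) := by linarith
      nlinarith
  · intro m hm hmN
    rw [h2 r N a b m hm]
    have hΛ : (P * vonMangoldt) m = ∑ i ∈ Icc 1 7, c i * (P * (M ^ i * Z ^ (i - 1) * ArithmeticFunction.log)) m := by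
      rw [mul_apply]
      simp_rw [mul_apply (f := P), Finset.mul_sum]
      rw [Finset.sum_comm]
      refine Finset.sum_congr rfl fun x hx => ?_
      have hx' := Nat.mem_divisorsAntidiagonal.1 hx
      have hx2 : x.2 ∣ m := ⟨x.1, by rw [mul_comm]; exact hx'.1.symm⟩
      have g2 : 1 ≤ x.2 := Nat.pos_of_dvd_of_pos hx2 (by omega)
      have g3 : x.2 ≤ z ^ 7 := (Nat.le_of_dvd (by omega) hx2).trans (hmN.trans hz)
      rw [h1 z x.2 g2 g3, Finset.mul_sum]
      refine Finset.sum_congr rfl fun i _ => ?_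
      rw [hc]
      ring
    rw [hΛ, DEC_LC_mul, DEC_LC_mul, ← Finset.sum_add_distrib, ← Finset.sum_add_distrib]
    refine Finset.sum_congr rfl fun i hi => ?_
    have hi' := Finset.mem_Icc.1 hi
    obtain ⟨k, rfl⟩ : ∃ k, i = k + 1 := ⟨i - 1, by omega⟩
    have hk : k + 1 - 1 = k := by omega
    have halg := DEC_alg P M Z ArithmeticFunction.log (sml X 0) (sml X 1) (bgf X 0) (bgf X 1) (DEC_zeta X) (DEC_log X) k
    rw [DEC_prod N z X a b (k + 1) (by omega), ← hP, ← hM]
    simp only [hS, hk]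
    rw [halg, ArithmeticFunction.add_apply, ArithmeticFunction.add_apply]
    simp only [hc]
    ring

end Pool.Agent.SK
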