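import Pool.Agent.helper24.SK.SpecE

/-!
# MP_5628fe, row sk:ETR: the edge function as a triple sum
-/

set_option autoImplicit false

namespace Pool.Agent.SK

open Finset ArithmeticFunction MeasureTheory
open Pool.Agent.CH (nit DPb Win Tset ph rgh)
open Pool.Agent.EC (tri vN fN XN TL AdT yN UN edg)
open Pool.Agent.helper85.BVP (tau)
open GD (ks)

private theorem ETR_inner (U n : ℕ) (hn : 1 ≤ n) (h : ℕ → ℕ → ℝ) :
    ∑ x ∈ Ioc 0 U, ∑ y ∈ Ioc 0 U, (if x * y = n then h x y else 0) =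
      ∑ p ∈ n.divisorsAntidiagonal, (if p.1 ≤ U ∧ p.2 ≤ U then h p.1 p.2 else 0) := by
  rw [← Finset.sum_product' (Ioc 0 U) (Ioc 0 U) (fun x y => if x * y = n then h x y else 0),
    ← Finset.sum_filter, ← Finset.sum_filter]
  refine Finset.sum_congr ?_ fun _ _ => rfl
  ext p
  simp only [Finset.mem_filter, Finset.mem_product, Finset.mem_Ioc, Nat.mem_divisorsAntidiagonal]
  constructor
  · rintro ⟨⟨⟨_, h1⟩, _, h2⟩, h3⟩
    exact ⟨⟨h3, by omega⟩, h1, h2⟩
  · rintro ⟨⟨h3, _⟩, h1, h2⟩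
    have hp : 0 < p.1 * p.2 := by omega
    exact ⟨⟨⟨Nat.pos_of_mul_pos_right hp |>.trans_le le_rfl, h1⟩, Nat.pos_of_mul_pos_left hp, h2⟩, h3⟩

private theorem ETR_rgh_mul (y : ℝ) (a b : ℕ) : rgh y (a * b) ↔ rgh y a ∧ rgh y b := by
  unfold rgh
  constructor
  · rintro ⟨h0, h⟩
    have ha : a ≠ 0 := fun e => h0 (by rw [e, zero_mul])
    have hb : b ≠ 0 := fun e => h0 (by rw [e, mul_zero])
    exact ⟨⟨ha, fun p hp hd => h p hp (hd.mul_right b)⟩, ⟨hb, fun p hp hd => h p hp (hd.mul_left a)⟩⟩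
  · rintro ⟨⟨ha, h1⟩, hb, h2⟩
    refine ⟨mul_ne_zero ha hb, fun p hp hd => ?_⟩
    rcases hp.dvd_mul.1 hd with h | h
    · exact h1 p hp h
    · exact h2 p hp h

open Classical in
/-- `rf` for real functions -/
private noncomputable def ETR_rr (C N : ℕ) (f : ℕ → ℝ) (n : ℕ) : ℝ := if rgh (yN N) n ∧ n ≤ UN C N then f n else 0

private theorem ETR_rf (C N : ℕ) (f : ℕ → ℝ) (n : ℕ) :
    rf C N (fun n => ((f n : ℝ) : ℂ)) n = ((ETR_rr C N f n : ℝ) : ℂ) := by
  unfold rf ETR_rr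
  split_ifs <;> simp

private theorem ETR_edg (C N j : ℕ) (hj : 1 ≤ j) :
    edg C N j = - ∑ x ∈ Ioc 0 (UN C N), ∑ y ∈ Ioc 0 (UN C N), ∑ z ∈ Ioc 0 (UN C N),
      (if x * y * z = j then ETR_rr C N (fun n => ((moebius n : ℤ) : ℝ)) x * ETR_rr C N (fun n => vonMangoldt n) y *
        ETR_rr C N (fun _ => 1) z else 0) := by
  classical
  set U := UN C N with hU
  by_cases hr : rgh (yN N) j
  · have e1 : ∀ x ∈ Ioc 0 U, ∀ y ∈ Ioc 0 U, ∀ z ∈ Ioc 0 U,
        (if x * y * z = j then ETR_rr C N (fun n => ((moebius n : ℤ) : ℝ)) x * ETR_rr C N (fun n => vonMangoldt n) y *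
          ETR_rr C N (fun _ => 1) z else 0) =
        (if x * y * z = j then ((moebius x : ℤ) : ℝ) * vonMangoldt y else 0) := by
      intro x hx y hy z hz
      by_cases h : x * y * z = j
      · rw [if_pos h, if_pos h]
        have h1 : rgh (yN N) (x * y * z) := by rw [h]; exact hr
        rw [ETR_rgh_mul, ETR_rgh_mul] at h1
        obtain ⟨⟨h2, h3⟩, h4⟩ := h1
        unfold ETR_rr
        rw [if_pos ⟨h2, (Finset.mem_Ioc.1 hx).2⟩, if_pos ⟨h3, (Finset.mem_Ioc.1 hy).2⟩,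
          if_pos ⟨h4, (Finset.mem_Ioc.1 hz).2⟩, mul_one]
      · rw [if_neg h, if_neg h]
    have e2 : ∑ x ∈ Ioc 0 U, ∑ y ∈ Ioc 0 U, ∑ z ∈ Ioc 0 U,
        (if x * y * z = j then ETR_rr C N (fun n => ((moebius n : ℤ) : ℝ)) x * ETR_rr C N (fun n => vonMangoldt n) y *
          ETR_rr C N (fun _ => 1) z else 0) =
        ∑ z ∈ Ioc 0 U, ∑ x ∈ Ioc 0 U, ∑ y ∈ Ioc 0 U,
          (if x * y * z = j then ((moebius x : ℤ) : ℝ) * vonMangoldt y else 0) := by
      calc _ = ∑ x ∈ Ioc 0 U, ∑ y ∈ Ioc 0 U, ∑ z ∈ Ioc 0 U,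
          (if x * y * z = j then ((moebius x : ℤ) : ℝ) * vonMangoldt y else 0) :=
            Finset.sum_congr rfl fun x hx => Finset.sum_congr rfl fun y hy => Finset.sum_congr rfl fun z hz =>
              e1 x hx y hy z hz
        _ = ∑ x ∈ Ioc 0 U, ∑ z ∈ Ioc 0 U, ∑ y ∈ Ioc 0 U,
          (if x * y * z = j then ((moebius x : ℤ) : ℝ) * vonMangoldt y else 0) :=
            Finset.sum_congr rfl fun x _ => Finset.sum_comm
        _ = _ := Finset.sum_comm
    rw [e2]
    unfold edg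
    rw [if_pos hr, ← hU]
    congr 1
    -- the sum over z
    have e3 : ∑ z ∈ Ioc 0 U, ∑ x ∈ Ioc 0 U, ∑ y ∈ Ioc 0 U,
          (if x * y * z = j then ((moebius x : ℤ) : ℝ) * vonMangoldt y else 0) =
        ∑ z ∈ (Ioc 0 U).filter (fun z => z ∣ j), ∑ x ∈ Ioc 0 U, ∑ y ∈ Ioc 0 U,
          (if x * y * z = j then ((moebius x : ℤ) : ℝ) * vonMangoldt y else 0) := by
      rw [Finset.sum_filter]
      refine Finset.sum_congr rfl fun z _ => ?_
      by_cases hz : z ∣ j
      · rw [if_pos hz]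
      · rw [if_neg hz]
        refine Finset.sum_eq_zero fun x _ => Finset.sum_eq_zero fun y _ => ?_
        rw [if_neg]
        intro h
        exact hz ⟨x * y, by rw [← h]; ring⟩
    rw [e3]
    have e4 : (Ioc 0 U).filter (fun z => z ∣ j) = j.divisors.filter fun c => c ≤ U := by
      ext z
      simp only [Finset.mem_filter, Finset.mem_Ioc, Nat.mem_divisors]
      constructor
      · rintro ⟨⟨_, h1⟩, h2⟩; exact ⟨⟨h2, by omega⟩, h1⟩
      · rintro ⟨⟨h2, _⟩, h1⟩; exact ⟨⟨Nat.pos_of_dvd_of_pos h2 (by omega), h1⟩, h2⟩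
    rw [e4]
    refine Finset.sum_congr rfl fun z hz => ?_
    have hz' := Finset.mem_filter.1 hz
    have hzj : z ∣ j := (Nat.mem_divisors.1 hz'.1).1
    have hz0 : 0 < z := Nat.pos_of_dvd_of_pos hzj (by omega)
    obtain ⟨n, hn⟩ := hzj
    have hn1 : 1 ≤ n := by
      rcases Nat.eq_zero_or_pos n with h | h
      · subst h; omega
      · exact h
    have hdiv : j / z = n := by rw [hn]; exact Nat.mul_div_cancel_left n hz0
    rw [hdiv]
    have e5 : ∀ x ∈ Ioc 0 U, ∀ y ∈ Ioc 0 U,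
        (if x * y * z = j then ((moebius x : ℤ) : ℝ) * vonMangoldt y else 0) =
        (if x * y = n then ((moebius x : ℤ) : ℝ) * vonMangoldt y else 0) := by
      intro x _ y _
      by_cases h : x * y = n
      · rw [if_pos h, if_pos (by rw [h, hn]; ring)]
      · rw [if_neg h, if_neg]
        intro h'
        apply h
        have h2 : z * (x * y) = z * n := by rw [← hn, ← h']; ring
        exact Nat.eq_of_mul_eq_mul_left hz0 h2
    rw [Finset.sum_congr rfl fun x hx => Finset.sum_congr rfl fun y hy => e5 x hx y hy,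
      ETR_inner U n hn1 (fun x y => ((moebius x : ℤ) : ℝ) * vonMangoldt y)]
    show (Pool.Agent.helper85.BVP.trunc Pool.Agent.helper85.BVP.Mr U *
      Pool.Agent.helper85.BVP.trunc vonMangoldt U) n = _
    rw [mul_apply]
    refine Finset.sum_congr rfl fun p _ => ?_
    rw [Pool.Agent.helper85.BVP.trunc_apply, Pool.Agent.helper85.BVP.trunc_apply]
    have hMr : Pool.Agent.helper85.BVP.Mr p.1 = ((moebius p.1 : ℤ) : ℝ) := rfl
    rw [hMr]
    by_cases h1 : p.1 ≤ U
    · by_cases h2 : p.2 ≤ U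
      · rw [if_pos h1, if_pos h2, if_pos ⟨h1, h2⟩]
      · have h3 : ¬ (p.1 ≤ U ∧ p.2 ≤ U) := fun h => h2 h.2
        rw [if_neg h2, if_neg h3, mul_zero]
    · have h3 : ¬ (p.1 ≤ U ∧ p.2 ≤ U) := fun h => h1 h.1
      rw [if_neg h1, if_neg h3, zero_mul]
  · unfold edg
    rw [if_neg hr]
    symm
    rw [neg_eq_zero]
    refine Finset.sum_eq_zero fun x _ => Finset.sum_eq_zero fun y _ => Finset.sum_eq_zero fun z _ => ?_
    by_cases h : x * y * z = j
    · rw [if_pos h]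
      have h1 : ¬ (rgh (yN N) x ∧ rgh (yN N) y ∧ rgh (yN N) z) := by
        rintro ⟨h2, h3, h4⟩
        apply hr
        rw [← h, ETR_rgh_mul, ETR_rgh_mul]
        exact ⟨⟨h2, h3⟩, h4⟩
      by_cases h2 : rgh (yN N) x
      · by_cases h3 : rgh (yN N) y
        · have h4 : ETR_rr C N (fun _ => 1) z = 0 := by
            unfold ETR_rr
            exact if_neg fun h5 => h1 ⟨h2, h3, h5.1⟩
          rw [h4, mul_zero]
        · have h4 : ETR_rr C N (fun n => vonMangoldt n) y = 0 := by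
            unfold ETR_rr
            exact if_neg fun h5 => h3 h5.1
          rw [h4]; ring
      · have h4 : ETR_rr C N (fun n => ((moebius n : ℤ) : ℝ)) x = 0 := by
          unfold ETR_rr
          exact if_neg fun h5 => h2 h5.1
        rw [h4]; ring
    · rw [if_neg h]

theorem ETR : ETR_stmt := by
  classical
  intro C N G hG
  set U := UN C N with hU
  have e1 : ∀ x, rf C N (fun n => ((moebius n : ℤ) : ℂ)) x =
      ((ETR_rr C N (fun n => ((moebius n : ℤ) : ℝ)) x : ℝ) : ℂ) := by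
    intro x
    rw [← ETR_rf]
    congr 1
  have e2 : ∀ y, rf C N (fun n => (vonMangoldt n : ℂ)) y = ((ETR_rr C N (fun n => vonMangoldt n) y : ℝ) : ℂ) := by
    intro y
    rw [← ETR_rf]
  have e3 : ∀ z, rf C N (fun _ => 1) z = ((ETR_rr C N (fun _ => 1) z : ℝ) : ℂ) := by
    intro z
    rw [← ETR_rf]
    simp only [Complex.ofReal_one]
  have e4 : ∀ j ∈ Ioc 0 (64 * N ^ 3), ((edg C N j : ℝ) : ℂ) * G j =
      - ∑ x ∈ Ioc 0 U, ∑ y ∈ Ioc 0 U, ∑ z ∈ Ioc 0 U, (if x * y * z = j then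
        rf C N (fun n => ((moebius n : ℤ) : ℂ)) x * rf C N (fun n => (vonMangoldt n : ℂ)) y * rf C N (fun _ => 1) z *
          G (x * y * z) else 0) := by
    intro j hj
    rw [ETR_edg C N j (Finset.mem_Ioc.1 hj).1]
    push_cast
    rw [neg_mul, Finset.sum_mul]
    congr 1
    refine Finset.sum_congr rfl fun x _ => ?_
    rw [Finset.sum_mul]
    refine Finset.sum_congr rfl fun y _ => ?_
    rw [Finset.sum_mul]
    refine Finset.sum_congr rfl fun z _ => ?_
    rw [e1, e2, e3]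
    by_cases h : x * y * z = j
    · rw [if_pos h, if_pos h, h]
      push_cast
      ring
    · rw [if_neg h, if_neg h, Complex.ofReal_zero, zero_mul]
  rw [Finset.sum_congr rfl e4, Finset.sum_neg_distrib]
  congr 1
  rw [Finset.sum_comm]
  refine Finset.sum_congr rfl fun x hx => ?_
  rw [Finset.sum_comm]
  refine Finset.sum_congr rfl fun y hy => ?_
  rw [Finset.sum_comm]
  refine Finset.sum_congr rfl fun z hz => ?_
  have hpos : 0 < x * y * z := Nat.mul_pos (Nat.mul_pos (Finset.mem_Ioc.1 hx).1 (Finset.mem_Ioc.1 hy).1)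
    (Finset.mem_Ioc.1 hz).1
  rcases le_or_gt (x * y * z) (64 * N ^ 3) with hle | hlt
  · rw [Finset.sum_eq_single_of_mem (x * y * z) (Finset.mem_Ioc.2 ⟨hpos, hle⟩)]
    · rw [if_pos rfl]
    · intro j _ hne
      exact if_neg fun h => hne h.symm
  · rw [hG _ hlt, mul_zero]
    refine Finset.sum_eq_zero fun j hj => ?_
    simp

end Pool.Agent.SK
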